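import Pool.Agent.Y886.PPB
import Pool.Agent.V7H38.TS.Spec

set_option autoImplicit false
set_option maxHeartbeats 1000000

/-! # Project TS: the upper bound sieve for `s`, `s + h`, `a - s`, `a - 3 h - s` -/

namespace Pool.Agent.V7H46.TS

open Finset Filter Pool.Agent.W262.RK
open Pool.Agent.V7H38.TS (reps quad S_PROD S_SIEVE)
open Pool.Agent.Y886.PP (fac_ge one_le_prod_real prod_sub_real)

theorem t_SIEVE (hPROD : S_PROD) : S_SIEVE := by
  classical
  obtain ⟨CP, hCP, XP, hP⟩ := hPROD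
  obtain ⟨C, K, y0, hC, hK, hsv⟩ := Pool.Agent.W340.RT.SVR2.svr2 (Fin 4) 10 (by simp)
  have tN : Tendsto (fun N : ℕ => (N : ℝ)) atTop atTop := tendsto_natCast_atTop_atTop
  have hKr : (1 : ℝ) ≤ K := by exact_mod_cast hK
  obtain ⟨e, he⟩ : ∃ e : ℝ, e = 1 / (2 * K) := ⟨_, rfl⟩
  have he0 : 0 < e := by rw [he]; positivity
  have heK : e * K = 1 / 2 := by rw [he]; field_simp
  have te : Tendsto (fun N : ℕ => (N : ℝ) ^ e) atTop atTop := (tendsto_rpow_atTop he0).comp tN
  have te2 : Tendsto (fun N : ℕ => (N : ℝ) ^ (e / 2)) atTop atTop :=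
    (tendsto_rpow_atTop (by positivity)).comp tN
  have e1 : ∀ᶠ N : ℕ in atTop, 6 * (N : ℝ) ^ (1 / 2 : ℝ) * Real.log N ^ 4 ≤ N := by
    have h := ((isLittleO_log_rpow_rpow_atTop ((4 : ℕ) : ℝ)
      (by norm_num : (0 : ℝ) < 1 / 2)).comp_tendsto tN).bound (by norm_num : (0 : ℝ) < 1 / 6)
    filter_upwards [h, eventually_ge_atTop 1] with N hN hN1
    have hN1' : (1 : ℝ) ≤ N := by exact_mod_cast hN1
    have hl := Real.log_nonneg hN1'
    simp only [Function.comp_def, Real.rpow_natCast] at hN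
    rw [Real.norm_of_nonneg (by positivity), Real.norm_of_nonneg (by positivity)] at hN
    have h2 : (N : ℝ) ^ (1 / 2 : ℝ) * (N : ℝ) ^ (1 / 2 : ℝ) = N := by
      rw [← Real.rpow_add (by linarith)]
      norm_num
    have h3 : 0 ≤ (N : ℝ) ^ (1 / 2 : ℝ) := by positivity
    nlinarith
  obtain ⟨N0, hN0⟩ := eventually_atTop.1 ((te.eventually_ge_atTop (y0 + 12 : ℝ)).and
    ((te2.eventually_ge_atTop 2).and (e1.and (eventually_ge_atTop 3))))
  refine ⟨3 * CP * (C * (4 * K) ^ 4 + 1), by positivity, max (max N0 XP) 108,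
    fun X hX a h hXa haX hh1 hhX => ?_⟩
  have hXN0 : N0 ≤ X := ((le_max_left _ _).trans (le_max_left _ _)).trans hX
  have hXP : XP ≤ X := ((le_max_right _ _).trans (le_max_left _ _)).trans hX
  have hX108 : 108 ≤ X := (le_max_right _ _).trans hX
  have hXr : (108 : ℝ) ≤ X := by exact_mod_cast hX108
  have hlX : 1 < Real.log X := by
    rw [Real.lt_log_iff_exp_lt (by linarith)]
    have := Real.exp_one_lt_d9
    linarith
  have hlX0 : 0 < Real.log X := by linarith
  -- the product is at least one, so the bound is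
  have hloglog0 : 0 ≤ Real.log (Real.log X) := Real.log_nonneg hlX.le
  obtain ⟨L, hL⟩ : ∃ L : ℝ, L = CP * Real.log (Real.log X) ^ 4 := ⟨_, rfl⟩
  have hL1 : 1 ≤ L := by
    rw [hL]
    refine le_trans ?_ (hP X hXP 1 one_ne_zero (Nat.one_le_pow _ _ (by omega)))
    simp
  by_cases h3h : a ≤ 3 * h
  · -- empty
    have h0 : quad a h = ∅ := by
      unfold quad
      rw [filter_eq_empty_iff]
      rintro s - ⟨-, h2⟩
      have : a - 3 * h - s = 0 := by omega
      rw [this] at h2
      exact Nat.not_prime_zero h2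
    rw [h0, card_empty, Nat.cast_zero]
    positivity
  push Not at h3h
  obtain ⟨N, hNdef⟩ : ∃ N : ℕ, N = 3 * X := ⟨_, rfl⟩
  obtain ⟨h1, h2, h3, h4⟩ := hN0 N (by omega)
  have hNr : (3 : ℝ) ≤ N := by exact_mod_cast h4
  have hNX : (N : ℝ) = 3 * X := by rw [hNdef]; push_cast; ring
  have hlN : 0 < Real.log N := Real.log_pos (by linarith)
  have hlXN : Real.log X ≤ Real.log N := Real.log_le_log (by linarith) (by linarith)
  obtain ⟨y, hy⟩ : ∃ y : ℕ, y = ⌊(N : ℝ) ^ e⌋₊ := ⟨_, rfl⟩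
  have hyle : (y : ℝ) ≤ (N : ℝ) ^ e := by rw [hy]; exact Nat.floor_le (by positivity)
  have hylt : (N : ℝ) ^ e < y + 1 := by rw [hy]; exact Nat.lt_floor_add_one _
  have hyr : (y0 : ℝ) + 11 ≤ y := by linarith
  have hy9 : y0 + 11 ≤ y := by exact_mod_cast hyr
  have hsplit : (N : ℝ) ^ (e / 2) * (N : ℝ) ^ (e / 2) = (N : ℝ) ^ e := by
    rw [← Real.rpow_add (by linarith)]
    congr 1
    ring
  have hylow : (N : ℝ) ^ (e / 2) ≤ y := by nlinarith
  have hlogy : Real.log N / (4 * K) ≤ Real.log y := by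
    have h5 := Real.log_le_log (by positivity) hylow
    rw [Real.log_rpow (by linarith)] at h5
    refine le_trans (le_of_eq ?_) h5
    rw [he]
    field_simp
    ring
  have hyK : y ^ K ≤ N := by
    have h5 : (y : ℝ) ^ K ≤ N := by
      calc (y : ℝ) ^ K ≤ ((N : ℝ) ^ e) ^ K := pow_le_pow_left₀ (Nat.cast_nonneg _) hyle K
        _ = (N : ℝ) ^ (1 / 2 : ℝ) := by
            rw [← Real.rpow_natCast, ← Real.rpow_mul (by linarith), heK]
        _ ≤ (N : ℝ) ^ (1 : ℝ) := Real.rpow_le_rpow_of_exponent_le (by linarith) (by norm_num)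
        _ = N := Real.rpow_one _
    exact_mod_cast h5
  have hyhalf : (y : ℝ) ≤ (N : ℝ) ^ (1 / 2 : ℝ) := by
    refine hyle.trans (Real.rpow_le_rpow_of_exponent_le (by linarith) ?_)
    rw [he]
    apply one_div_le_one_div_of_le (by norm_num)
    linarith
  obtain ⟨M, hM⟩ : ∃ M : ℕ, M = h * a * (a - 3 * h) * (a + h) * (a - 2 * h) := ⟨_, rfl⟩
  have hM0 : M ≠ 0 := by
    rw [hM]
    refine Nat.mul_ne_zero (Nat.mul_ne_zero (Nat.mul_ne_zero (Nat.mul_ne_zero ?_ ?_) ?_) ?_) ?_ <;> omega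
  have hMX : M ≤ X ^ 6 := by
    rw [hM]
    calc h * a * (a - 3 * h) * (a + h) * (a - 2 * h)
        ≤ X * (3 * X) * (3 * X) * (4 * X) * (3 * X) := by
          refine Nat.mul_le_mul (Nat.mul_le_mul (Nat.mul_le_mul (Nat.mul_le_mul hhX haX) ?_) ?_) ?_ <;>
            omega
      _ = 108 * X ^ 5 := by ring
      _ ≤ X * X ^ 5 := Nat.mul_le_mul_right _ hX108
      _ = X ^ 6 := by ring
  have hd1 : h ∣ M := by
    rw [hM, mul_assoc, mul_assoc, mul_assoc]; exact Dvd.intro _ rfl
  have hd2 : a ∣ M := by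
    rw [hM, mul_assoc, mul_assoc, mul_comm h a, mul_assoc]; exact Dvd.intro _ rfl
  have hd3 : (a - 3 * h) ∣ M := by
    rw [hM]; exact ⟨h * a * (a + h) * (a - 2 * h), by ring⟩
  have hd4 : (a + h) ∣ M := by
    rw [hM]; exact ⟨h * a * (a - 3 * h) * (a - 2 * h), by ring⟩
  have hd5 : (a - 2 * h) ∣ M := by
    rw [hM]; exact Dvd.intro_left _ rfl
  obtain ⟨α, hα⟩ : ∃ α : Fin 4 → ℤ, α = ![1, 1, -1, -1] := ⟨_, rfl⟩
  obtain ⟨β, hβ⟩ : ∃ β : Fin 4 → ℤ, β = ![0, (h : ℤ), (a : ℤ), (a : ℤ) - 3 * h] := ⟨_, rfl⟩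
  have a0 : α 0 = 1 := by rw [hα]; rfl
  have a1 : α 1 = 1 := by rw [hα]; rfl
  have a2 : α 2 = -1 := by rw [hα]; rfl
  have a3 : α 3 = -1 := by rw [hα]; rfl
  have b0 : β 0 = 0 := by rw [hβ]; rfl
  have b1 : β 1 = h := by rw [hβ]; rfl
  have b2 : β 2 = a := by rw [hβ]; rfl
  have b3 : β 3 = a - 3 * h := by rw [hβ]; rfl
  have key := hsv N y (by omega) (by omega) hyK α β 1 M 0 le_rfl
    (one_dvd _) hM0 (by rw [one_pow]; omega) (by
      intro p hp hpM
      unfold PS at hp
      rw [mem_filter, mem_Ioc] at hp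
      obtain ⟨⟨hp10, -⟩, hpp⟩ := hp
      have hn1 : ¬ (p : ℤ) ∣ (h : ℤ) := by
        rw [Int.natCast_dvd_natCast]
        exact fun h' => hpM (h'.trans hd1)
      have hn2 : ¬ (p : ℤ) ∣ (a : ℤ) := by
        rw [Int.natCast_dvd_natCast]
        exact fun h' => hpM (h'.trans hd2)
      have hn3 : ¬ (p : ℤ) ∣ (a : ℤ) - 3 * h := by
        have e2 : (a : ℤ) - 3 * h = ((a - 3 * h : ℕ) : ℤ) := by omega
        rw [e2, Int.natCast_dvd_natCast]
        exact fun h' => hpM (h'.trans hd3)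
      have hn4 : ¬ (p : ℤ) ∣ (a : ℤ) + h := by
        have e2 : (a : ℤ) + h = ((a + h : ℕ) : ℤ) := by omega
        rw [e2, Int.natCast_dvd_natCast]
        exact fun h' => hpM (h'.trans hd4)
      have hn5 : ¬ (p : ℤ) ∣ (a : ℤ) - 2 * h := by
        have e2 : (a : ℤ) - 2 * h = ((a - 2 * h : ℕ) : ℤ) := by omega
        rw [e2, Int.natCast_dvd_natCast]
        exact fun h' => hpM (h'.trans hd5)
      have hn6 : ¬ (p : ℤ) ∣ 3 * (h : ℤ) := by
        intro h'
        rcases (Nat.prime_iff_prime_int.1 hpp).dvd_or_dvd h' with h5 | h5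
        · have := Int.le_of_dvd (by norm_num) h5
          omega
        · exact hn1 h5
      constructor
      · intro j h'
        have h5 : (p : ℤ) ∣ 1 ∨ (p : ℤ) ∣ -1 := by
          fin_cases j
          · left; rw [← a0]; exact h'
          · left; rw [← a1]; exact h'
          · right; rw [← a2]; exact h'
          · right; rw [← a3]; exact h'
        rcases h5 with h5 | h5
        · have := Int.le_of_dvd (by norm_num) h5
          omega
        · have := Int.le_of_dvd (by norm_num) ((dvd_neg (b := (1 : ℤ))).1 h5)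
          omega
      · have r01 : Res α β 0 1 = h := by unfold Res; rw [a0, a1, b0, b1]; ring
        have r02 : Res α β 0 2 = a := by unfold Res; rw [a0, a2, b0, b2]; ring
        have r03 : Res α β 0 3 = a - 3 * h := by unfold Res; rw [a0, a3, b0, b3]; ring
        have r12 : Res α β 1 2 = a + h := by unfold Res; rw [a1, a2, b1, b2]; ring
        have r13 : Res α β 1 3 = a - 2 * h := by unfold Res; rw [a1, a3, b1, b3]; ring
        have r23 : Res α β 2 3 = 3 * h := by unfold Res; rw [a2, a3, b2, b3]; ring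
        have r10 : Res α β 1 0 = -h := by unfold Res; rw [a0, a1, b0, b1]; ring
        have r20 : Res α β 2 0 = -a := by unfold Res; rw [a0, a2, b0, b2]; ring
        have r30 : Res α β 3 0 = -(a - 3 * h) := by unfold Res; rw [a0, a3, b0, b3]; ring
        have r21 : Res α β 2 1 = -(a + h) := by unfold Res; rw [a1, a2, b1, b2]; ring
        have r31 : Res α β 3 1 = -(a - 2 * h) := by unfold Res; rw [a1, a3, b1, b3]; ring
        have r32 : Res α β 3 2 = -(3 * h) := by unfold Res; rw [a2, a3, b2, b3]; ring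
        intro j l hjl h'
        fin_cases j <;> fin_cases l
        · exact absurd rfl hjl
        · exact hn1 (by rw [← r01]; exact h')
        · exact hn2 (by rw [← r02]; exact h')
        · exact hn3 (by rw [← r03]; exact h')
        · exact hn1 (by rw [← dvd_neg, ← r10]; exact h')
        · exact absurd rfl hjl
        · exact hn4 (by rw [← r12]; exact h')
        · exact hn5 (by rw [← r13]; exact h')
        · exact hn2 (by rw [← dvd_neg, ← r20]; exact h')
        · exact hn4 (by rw [← dvd_neg, ← r21]; exact h')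
        · exact absurd rfl hjl
        · exact hn6 (by rw [← r23]; exact h')
        · exact hn3 (by rw [← dvd_neg, ← r30]; exact h')
        · exact hn5 (by rw [← dvd_neg, ← r31]; exact h')
        · exact hn6 (by rw [← dvd_neg, ← r32]; exact h')
        · exact absurd rfl hjl)
  obtain ⟨B, hB⟩ : ∃ B : Finset ℕ, B = (Icc 1 N).filter (fun t : ℕ => t ≡ 0 [MOD 1] ∧
      ∀ p ∈ PS 10 y, ¬ p ∣ M → ∀ j, ¬ (p : ℤ) ∣ ff α β (t : ℤ) j) :=
    ⟨_, rfl⟩
  have hsub : quad a h ⊆
      B ∪ (Icc 0 y ∪ ((Icc 0 y).image (fun b => a - b) ∪ (Icc 0 y).image (fun b => a - 3 * h - b))) := by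
    intro s hs
    unfold quad reps at hs
    rw [mem_filter, mem_filter, mem_range] at hs
    obtain ⟨⟨hsa, hp1, hp2⟩, hp3, hp4⟩ := hs
    have g1 := hp1.two_le
    have g2 := hp2.two_le
    have g4 := hp4.two_le
    rw [mem_union, mem_union, mem_union, mem_image, mem_image]
    by_cases c1 : s ≤ y
    · right; left; exact mem_Icc.2 ⟨by omega, c1⟩
    by_cases c2 : a - s ≤ y
    · right; right; left
      exact ⟨a - s, mem_Icc.2 ⟨by omega, c2⟩, by omega⟩
    by_cases c3 : a - 3 * h - s ≤ y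
    · right; right; right
      exact ⟨a - 3 * h - s, mem_Icc.2 ⟨by omega, c3⟩, by omega⟩
    left
    rw [hB, mem_filter, mem_Icc]
    refine ⟨⟨by omega, by omega⟩, Nat.modEq_one, ?_⟩
    intro p hp _ j
    unfold PS at hp
    rw [mem_filter, mem_Ioc] at hp
    intro h'
    have f0 : ff α β (s : ℤ) 0 = (s : ℤ) := by unfold ff; rw [a0, b0]; ring
    have f1 : ff α β (s : ℤ) 1 = ((s + h : ℕ) : ℤ) := by
      push_cast; unfold ff; rw [a1, b1]; ring
    have f2 : ff α β (s : ℤ) 2 = ((a - s : ℕ) : ℤ) := by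
      have : ((a - s : ℕ) : ℤ) = a - s := by omega
      rw [this]; unfold ff; rw [a2, b2]; ring
    have f3 : ff α β (s : ℤ) 3 = ((a - 3 * h - s : ℕ) : ℤ) := by
      have : ((a - 3 * h - s : ℕ) : ℤ) = a - 3 * h - s := by omega
      rw [this]; unfold ff; rw [a3, b3]; ring
    have hall : (p : ℤ) ∣ (s : ℤ) ∨ (p : ℤ) ∣ ((s + h : ℕ) : ℤ) ∨ (p : ℤ) ∣ ((a - s : ℕ) : ℤ) ∨
        (p : ℤ) ∣ ((a - 3 * h - s : ℕ) : ℤ) := by
      fin_cases j
      · left; rw [← f0]; exact h'
      · right; left; rw [← f1]; exact h'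
      · right; right; left; rw [← f2]; exact h'
      · right; right; right; rw [← f3]; exact h'
    rcases hall with h5 | h5 | h5 | h5
    · rw [Int.natCast_dvd_natCast, Nat.prime_dvd_prime_iff_eq hp.2 hp1] at h5
      omega
    · rw [Int.natCast_dvd_natCast, Nat.prime_dvd_prime_iff_eq hp.2 hp3] at h5
      omega
    · rw [Int.natCast_dvd_natCast, Nat.prime_dvd_prime_iff_eq hp.2 hp2] at h5
      omega
    · rw [Int.natCast_dvd_natCast, Nat.prime_dvd_prime_iff_eq hp.2 hp4] at h5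
      omega
  have hcard : ((quad a h).card : ℝ) ≤ B.card + 3 * (y + 1) := by
    have q1 := card_le_card hsub
    have q2 := card_union_le B (Icc 0 y ∪ ((Icc 0 y).image (fun b => a - b) ∪
      (Icc 0 y).image (fun b => a - 3 * h - b)))
    have q3 := card_union_le (Icc 0 y) ((Icc 0 y).image (fun b => a - b) ∪
      (Icc 0 y).image (fun b => a - 3 * h - b))
    have q4 := card_union_le ((Icc 0 y).image (fun b => a - b))
      ((Icc 0 y).image (fun b => a - 3 * h - b))
    have q5 : ((Icc 0 y).image (fun b => a - b)).card ≤ (Icc 0 y).card := card_image_le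
    have q6 : ((Icc 0 y).image (fun b => a - 3 * h - b)).card ≤ (Icc 0 y).card := card_image_le
    have q7 : (Icc 0 y).card = y + 1 := by simp
    have q8 : (quad a h).card ≤ B.card + 3 * (y + 1) := by omega
    exact_mod_cast q8
  have hprod : ∏ p ∈ M.primeFactors.filter (fun p => p ∈ PS 10 y),
      (p : ℝ) / ((p : ℝ) - 4) ≤ L := by
    rw [hL]
    refine le_trans ?_ (hP X hXP M hM0 hMX)
    apply prod_sub_real _ (fun p : ℕ => (p : ℝ) / ((p : ℝ) - 4))
    · intro p hp
      have := fac_ge (c := 4) (p := p) (by have := (mem_filter.1 hp).2; omega)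
      push_cast at this
      exact this
    · intro p hp
      rw [mem_filter] at hp ⊢
      have := hp.2
      unfold PS at this
      rw [mem_filter, mem_Ioc] at this
      exact ⟨hp.1, this.1.1⟩
  have hB1 : (B.card : ℝ) ≤ C * (4 * K) ^ 4 * N * L / Real.log N ^ 4 := by
    have key2 : (B.card : ℝ) ≤ C * (N / (1 : ℕ)) * (∏ p ∈ M.primeFactors.filter (fun p => p ∈ PS 10 y),
        (p : ℝ) / ((p : ℝ) - Fintype.card (Fin 4))) / (Real.log y) ^ (Fintype.card (Fin 4)) := by
      rw [hB]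
      convert key
    refine key2.trans ?_
    rw [Fintype.card_fin, Nat.cast_one, div_one]
    have hly0 : 0 < Real.log N / (4 * K) := by positivity
    rw [div_le_div_iff₀ (by
      apply pow_pos
      linarith) (by positivity)]
    have b1' : (Real.log N) ^ 4 ≤ (4 * K) ^ 4 * Real.log y ^ 4 := by
      rw [← mul_pow]
      apply pow_le_pow_left₀ hlN.le
      rw [div_le_iff₀ (by positivity)] at hlogy
      linarith
    have hcast : (((4 : ℕ) : ℝ)) = 4 := by norm_num
    rw [hcast]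
    calc C * N * (∏ p ∈ M.primeFactors.filter (fun p => p ∈ PS 10 y), (p : ℝ) / ((p : ℝ) - 4)) *
          Real.log N ^ 4 ≤ C * N * L * ((4 * K) ^ 4 * Real.log y ^ 4) := by
          apply mul_le_mul _ b1' (by positivity) (by positivity)
          exact mul_le_mul_of_nonneg_left hprod (by positivity)
      _ = C * (4 * K) ^ 4 * N * L * Real.log y ^ 4 := by ring
  have hB2 : 3 * ((y : ℝ) + 1) ≤ N * L / Real.log N ^ 4 := by
    rw [le_div_iff₀ (by positivity)]
    have hy1 : (1 : ℝ) ≤ y := by linarith [Nat.cast_nonneg (α := ℝ) y0]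
    calc 3 * ((y : ℝ) + 1) * Real.log N ^ 4 ≤ 6 * (N : ℝ) ^ (1 / 2 : ℝ) * Real.log N ^ 4 := by
          apply mul_le_mul_of_nonneg_right _ (by positivity)
          linarith
      _ ≤ (N : ℝ) := h3
      _ ≤ N * L := le_mul_of_one_le_right (by linarith) hL1
  have hfin : ((quad a h).card : ℝ) ≤ (C * (4 * K) ^ 4 + 1) * N * L / Real.log N ^ 4 := by
    calc ((quad a h).card : ℝ) ≤ B.card + 3 * (y + 1) := hcard
      _ ≤ C * (4 * K) ^ 4 * N * L / Real.log N ^ 4 + N * L / Real.log N ^ 4 := by linarith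
      _ = (C * (4 * K) ^ 4 + 1) * N * L / Real.log N ^ 4 := by ring
  refine hfin.trans ?_
  have hnum : 0 ≤ (C * (4 * K) ^ 4 + 1) * N * L := by positivity
  calc (C * (4 * K) ^ 4 + 1) * N * L / Real.log N ^ 4
      ≤ (C * (4 * K) ^ 4 + 1) * N * L / Real.log X ^ 4 :=
        div_le_div_of_nonneg_left hnum (by positivity) (pow_le_pow_left₀ hlX0.le hlXN 4)
    _ = 3 * CP * (C * (4 * K) ^ 4 + 1) * X * Real.log (Real.log X) ^ 4 / Real.log X ^ 4 := by
        rw [hNX, hL]; ring

end Pool.Agent.V7H46.TS
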